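import Pool.Agent.H79.BN.Targets

/-!
# `Ab` fails along sequences (row V8)
-/

namespace Pool.Agent.H93.BN

open MeasureTheory Set Filter Topology Pool.Agent.H93.BL Pool.Agent.H79.BN

theorem v8 : T_V8 := by
  intro n _ w E y d h
  have h1 : ∀ k : ℕ, ∃ (P : Polygon (Fin n)) (z : Fin n × ℝ × ℝ), Close w (1 / ((k : ℝ) + 1)) P ∧
      ‖P.pos z - y‖ < 1 / ((k : ℝ) + 1) ∧ ‖P.dir z - d / (‖d‖ : ℂ)‖ < 1 / ((k : ℝ) + 1) ∧
      Surv P E z := by
    intro k
    by_contra hk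
    refine h ⟨1 / ((k : ℝ) + 1), by positivity, ?_⟩
    intro P hP z h1 h2 h3
    exact hk ⟨P, z, hP, h1, h2, h3⟩
  choose P z hP h2 h3 h4 using h1
  have h0 : Tendsto (fun k : ℕ => 1 / ((k : ℝ) + 1)) atTop (𝓝 0) :=
    tendsto_one_div_add_atTop_nhds_zero_nat
  refine ⟨P, z, ?_, h4, ?_, ?_⟩
  · intro δ hδ
    filter_upwards [h0.eventually (gt_mem_nhds hδ)] with k hk
    exact ⟨(hP k).1, fun i => ((hP k).2 i).trans hk⟩
  · rw [tendsto_iff_norm_sub_tendsto_zero]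
    exact squeeze_zero (fun k => norm_nonneg _) (fun k => (h2 k).le) h0
  · rw [tendsto_iff_norm_sub_tendsto_zero]
    exact squeeze_zero (fun k => norm_nonneg _) (fun k => (h3 k).le) h0

end Pool.Agent.H93.BN
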