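import Pool.Agent.H79.BN.Targets
import Pool.Agent.H93.BL.Final

/-!
# The non-separation criterion (row W12)
-/

namespace Pool.Agent.H93.BN

open MeasureTheory Set Filter Topology Pool.Agent.H93.BL Pool.Agent.H79.BN

theorem w12 (h1 : T_W1) (h4 : T_W4) (h11 : T_W11) : T_W12 := by
  intro ι _ P E c hc hns X hX hinv hcov i
  by_contra hi
  have hM0 := Pool.Agent.H93.BL.Final.pM0
  have hM9 := Pool.Agent.H93.BL.Final.pM9
  -- the set of untrapped points outside X is null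
  have h5 : P.liouville i {z | z ∉ X i ∧ ¬ Trapped P E (i, z)} = 0 := by
    have h6 := hM9 ι P E X hinv hcov i
    rw [ae_iff] at h6
    refine measure_mono_null ?_ h6
    rintro z ⟨hz1, hz2⟩
    simp only [mem_setOf_eq, not_forall]
    refine ⟨hz1, ?_⟩
    rintro ⟨f, hf0, hf⟩
    exact hz2 ⟨f, hf0, fun n => ⟨(hf n).1, (hf n).2.2.1⟩⟩
  have h7 := ((hM0 ι P i _).1).mp h5
  have h8 : volume ((X i)ᶜ ∩ P.box i) ≠ 0 := fun h => hi (((hM0 ι P i _).1).mpr h)
  have hbox : MeasurableSet (P.box i) := by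
    unfold Polygon.box
    exact measurableSet_Ioo.prod measurableSet_Ioo
  obtain ⟨q, a, c0, Φ, ha, hc0, hΦ, hprop⟩ := h1 ((X i)ᶜ ∩ P.box i) {z | Trapped P E (i, z)} c hc
    ((hX i).compl.inter hbox) h8 (fun x hx => ⟨hx.2.2.1, hx.2.2.2⟩) (by
      refine measure_mono_null ?_ h7
      rintro z ⟨⟨hz1, hz2⟩, hz3⟩
      exact ⟨⟨hz1, hz3⟩, hz2⟩)
  refine h11 ι P i q a c0 Φ ha hc0 hΦ ?_
  intro φ hφ
  obtain ⟨hφ1, hφ2, s, s', hs, hs', hsq, hqs, hss⟩ := hprop φ hφ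
  refine ⟨hφ1, hφ2, ?_⟩
  have hlt : s < s' := by linarith
  have hcos : (s' - s) * Real.cos φ < c := by
    have := Real.cos_le_one φ
    have h9 : (s' - s) * Real.cos φ ≤ (s' - s) * 1 :=
      mul_le_mul_of_nonneg_left this (by linarith)
    linarith
  obtain ⟨κ, hκ⟩ := h4 ι P E c i s s' φ hns hlt hcos hs hs'
  refine ⟨κ, fun r hr => hκ r ?_⟩
  rw [abs_lt] at hr
  exact ⟨by linarith, by linarith⟩

end Pool.Agent.H93.BN
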