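import Pool.Agent.H79.BN.Targets

/-!
# Strips are never cut (row W4)
-/

namespace Pool.Agent.H93.BN

open MeasureTheory Set Filter Topology Pool.Agent.H93.BL Pool.Agent.H79.BN

theorem w4 (h3 : T_W3) : T_W4 := by
  intro ι P E c i a b φ hns hab hc ha hb
  let Q : (ι × ℝ × ℝ × ℝ) → Prop := fun x => x.2.1 < x.2.2.1 ∧
    (x.2.2.1 - x.2.1) * Real.cos x.2.2.2 < c ∧ Trapped P E (x.1, x.2.1, x.2.2.2) ∧
    Trapped P E (x.1, x.2.2.1, x.2.2.2)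
  have hstep : ∀ x : {x // Q x}, ∃ y : {x // Q x}, ∀ r ∈ Icc x.1.2.1 x.1.2.2.1,
      ∃ r' ∈ Icc y.1.2.1 y.1.2.2.1, P.Step (x.1.1, r, x.1.2.2.2) (y.1.1, r', y.1.2.2.2) := by
    rintro ⟨⟨i, a, b, φ⟩, hab, hc, ha, hb⟩
    obtain ⟨j, a', b', φ', h1, h2, h4, h5, h6⟩ := h3 ι P E c i a b φ hns hab hc ha hb
    refine ⟨⟨⟨j, a', b', φ'⟩, h1, ?_, h4, h5⟩, h6⟩
    have hc' : (b - a) * Real.cos φ < c := hc
    show (b' - a') * Real.cos φ' < c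
    rw [h2]
    exact hc'
  choose nx hnx using hstep
  let x : ℕ → {x // Q x} := fun n => Nat.rec ⟨⟨i, a, b, φ⟩, hab, hc, ha, hb⟩ (fun _ y => nx y) n
  have hx : ∀ n, x (n + 1) = nx (x n) := fun n => rfl
  refine ⟨fun n => (x n).1.1, ?_⟩
  intro r hr
  have hr2 : ∀ n, ∀ s : {s : ℝ // s ∈ Icc (x n).1.2.1 (x n).1.2.2.1},
      ∃ t : {s : ℝ // s ∈ Icc (x (n + 1)).1.2.1 (x (n + 1)).1.2.2.1},
        P.Step ((x n).1.1, s.1, (x n).1.2.2.2) ((x (n + 1)).1.1, t.1, (x (n + 1)).1.2.2.2) := by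
    intro n s
    obtain ⟨t, ht, h⟩ := hnx (x n) s.1 s.2
    exact ⟨⟨t, ht⟩, h⟩
  choose g hg using hr2
  let s : (n : ℕ) → {s : ℝ // s ∈ Icc (x n).1.2.1 (x n).1.2.2.1} :=
    fun n => Nat.rec ⟨r, hr⟩ (fun m t => g m t) n
  refine ⟨fun n => ((x n).1.1, (s n).1, (x n).1.2.2.2), rfl, ?_⟩
  intro n
  exact ⟨hg n (s n), rfl⟩

end Pool.Agent.H93.BN
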