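import Pool.Agent.H79.BN.Targets
import Pool.Agent.H93.BL.Basic

/-!
# An infinite orbit has infinite length (row W9)
-/

namespace Pool.Agent.H93.BN

open MeasureTheory Set Filter Topology Pool.Agent.H93.BL Pool.Agent.H79.BN

theorem w9 : T_W9 := by
  intro ι _ P f hf D
  by_contra hD
  push Not at hD
  have hsum : Summable fun n => dist (P.pos (f n)) (P.pos (f (n + 1))) :=
    summable_of_sum_range_le (fun n => dist_nonneg) (fun n => hD n)
  have hcau : CauchySeq fun n => P.pos (f n) := cauchySeq_of_summable_dist hsum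
  obtain ⟨y, hy⟩ := cauchySeq_tendsto_of_complete hcau
  -- the limit lies on all sides visited late
  have h1 : ∀ j : ι, ∀ᶠ n in atTop, (f n).1 = j → y ∈ segment ℝ (P.p j) (P.q j) := by
    intro j
    by_cases hj : ∃ᶠ n in atTop, (f n).1 = j
    · have hyj : y ∈ segment ℝ (P.p j) (P.q j) := by
        have hcl : IsClosed (segment ℝ (P.p j) (P.q j)) := by
          rw [segment_eq_image]
          refine (isCompact_Icc.image ?_).isClosed
          fun_prop
        refine hcl.mem_of_frequently_of_tendsto ?_ hy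
        refine hj.mono ?_
        intro n hn
        have := P.pos_mem (hf n).1
        rw [hn] at this
        exact openSegment_subset_segment _ _ _ this
      exact Eventually.of_forall fun n _ => hyj
    · rw [not_frequently] at hj
      filter_upwards [hj] with n hn h
      exact absurd h hn
  obtain ⟨N, hN⟩ := eventually_atTop.mp (eventually_all.mpr h1)
  have h2 : ∀ n, N ≤ n → ∃ c : ℝ, P.pos (f n) - y = (c : ℂ) * P.u (f n).1 := by
    intro n hn
    obtain ⟨s, _, _, hs⟩ := (P.mem_segment_iff (f n).1 y).1 (hN n hn (f n).1 rfl)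
    refine ⟨(f n).2.1 - s, ?_⟩
    rw [hs]
    unfold Polygon.pos
    push_cast
    ring
  set A : ℕ → ℝ := fun n => cr (P.pos (f n) - y) (P.dir (f n)) with hA
  have h3 : ∀ n, N ≤ n → A (n + 1) = -A n := by
    intro n hn
    obtain ⟨c, hc⟩ := h2 (n + 1) (by omega)
    obtain ⟨_, _, t, _, ht, _, hd⟩ := hf n
    have e1 : P.pos (f (n + 1)) - y = (P.pos (f n) - y) + (t : ℂ) * P.dir (f n) := by
      rw [ht]
      ring
    have e2 : cr (P.pos (f (n + 1)) - y) (P.dir (f n)) = A n := by
      rw [e1, cr_add_left, cr_smul_left, cr_self, mul_zero, add_zero]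
    have e3 : A (n + 1) = -cr (P.pos (f (n + 1)) - y) (P.dir (f n)) := by
      show cr (P.pos (f (n + 1)) - y) (P.dir (f (n + 1))) = _
      rw [hd, hc, cr_smul_left, cr_smul_left, cr_swap, P.cr_refl_u, cr_swap (P.dir (f n))]
      ring
    rw [e3, e2]
  have h4 : ∀ m, |A (N + m)| = |A N| := by
    intro m
    induction m with
    | zero => rfl
    | succ m ih =>
      rw [← add_assoc, h3 (N + m) (by omega), abs_neg, ih]
  have h5 : ∀ n, |A n| ≤ ‖P.pos (f n) - y‖ := by
    intro n
    have := abs_cr_le (P.pos (f n) - y) (P.dir (f n))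
    rw [P.norm_dir, mul_one] at this
    exact this
  have h6 : Tendsto (fun n => ‖P.pos (f n) - y‖) atTop (𝓝 0) :=
    tendsto_iff_norm_sub_tendsto_zero.mp hy
  have h7 : |A N| ≤ 0 := by
    refine ge_of_tendsto (h6.comp (tendsto_add_atTop_nat N)) ?_
    filter_upwards with m
    show |A N| ≤ ‖P.pos (f (m + N)) - y‖
    rw [← h4 m, add_comm N m]
    exact h5 _
  have h8 : ∀ n, N ≤ n → A n = 0 := by
    intro n hn
    obtain ⟨m, rfl⟩ := Nat.exists_eq_add_of_le hn
    have := h4 m
    have h9 : |A (N + m)| ≤ 0 := by rw [this]; exact h7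
    exact abs_eq_zero.mp (le_antisymm h9 (abs_nonneg _))
  have h10 : ∀ n, N ≤ n → P.pos (f n) = y := by
    intro n hn
    obtain ⟨c, hc⟩ := h2 n hn
    have h11 := h8 n hn
    rw [hA] at h11
    simp only at h11
    rw [hc, cr_smul_left, ← P.ip_n, P.ip_dir_n] at h11
    have h12 := P.cos_pos_of_phase (hf n).1
    have h13 : c = 0 := by
      rcases mul_eq_zero.mp h11 with h | h
      · exact h
      · exact absurd h h12.ne'
    rw [h13] at hc
    have : P.pos (f n) - y = 0 := by rw [hc]; simp
    exact sub_eq_zero.mp this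
  obtain ⟨_, _, t, htp, ht, _, _⟩ := hf N
  rw [h10 N le_rfl, h10 (N + 1) (by omega)] at ht
  have h14 : (t : ℂ) * P.dir (f N) = 0 := by
    have := ht
    linear_combination -this
  have h15 : ‖(t : ℂ) * P.dir (f N)‖ = t := by
    rw [norm_mul, P.norm_dir, mul_one, Complex.norm_real, Real.norm_of_nonneg htp.le]
  rw [h14, norm_zero] at h15
  linarith

end Pool.Agent.H93.BN
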